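import Pool.Agent.H929.BG.Res
import Pool.Agent.H591.BG.CE
import Pool.Agent.H253.BG.CI
import Pool.Agent.H788.BG.PE
import Pool.Agent.H199.BG.Ps
import Pool.Agent.H548.BG.StepE
import Pool.Agent.H548.BG.RecE
import Pool.Agent.H333.BG.FinE
import Pool.Agent.H139.BG.StepS
import Pool.Agent.H390.BG.FinS
import Pool.Agent.H297.BG.RecS
import Pool.Agent.H740.BG.NumE
import Pool.Agent.H881.BG.NumS
import Pool.Agent.H295.BG.RedE
import Pool.Agent.H539.BG.RedS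

/-! # BG: all the parts together -/

set_option autoImplicit false

namespace Pool.Agent.H929.BG

open Finset MvPolynomial
open scoped LinearAlgebra.Projectivization
open Pool.Agent.H350R3.MG Pool.Agent.H929.BW

theorem partsE : PartsE where
  ce := Pool.Agent.H591.BG.t_CE
  fin := Pool.Agent.H788.BG.t_PEfin
  stp := Pool.Agent.H548.BG.t_StepE
  fn := Pool.Agent.H333.BG.t_FinE
  recu := Pool.Agent.H548.BG.t_RecE Pool.Agent.H788.BG.t_PEadd Pool.Agent.H788.BG.t_PEnode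
  num := Pool.Agent.H740.BG.t_NumE
  red := Pool.Agent.H295.BG.t_RedE

theorem partsS : PartsS where
  ci := Pool.Agent.H253.BG.t_CI
  fin := Pool.Agent.H199.BG.t_PSfin
  stp := Pool.Agent.H139.BG.t_StepS
  fn := Pool.Agent.H390.BG.t_FinS
  recu := Pool.Agent.H297.BG.t_RecS Pool.Agent.H199.BG.t_PSadd Pool.Agent.H199.BG.t_PSmono
    Pool.Agent.H199.BG.t_PSnode
  num := Pool.Agent.H881.BG.t_NumS
  red := Pool.Agent.H539.BG.t_RedS

theorem main (n : ℕ) (hn : 1 ≤ n) : ∃ K : ℝ, 0 < K ∧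
    ∀ (k : ℕ) (m : Fin k → ℕ), 1 ≤ k → (∀ i, 1 ≤ m i) →
      (∀ (d : ℕ) (R : Finset ℕ), (∀ w ∈ vals m, Rare (n + 1) K m w → w ∈ R) →
        K * (∑ v ∈ vals m, vol (n + 1) m v ^ ((n : ℝ) / (n + 1)) +
            ∑ w ∈ R, (w : ℝ) ^ (n + 1)) ≤ |(naive (n + 1) d m : ℝ)| →
        Generally (fun P : Fin k → ℙ ℂ (Fin (n + 1 + 1) → ℂ) =>
          ImposesMaximalConditions d m P)) ∧
      ((∀ i, ¬ Rare (n + 1) K m (m i)) → ∀ d : ℕ,
        (∀ T : ℝ, 0 ≤ T → T ^ (n + 1) = ∑ i, PP n (m i) →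
          K * ((vals m).card : ℝ) ^ ((1 : ℝ) / (n + 1)) ≤ |(d : ℝ) - T| →
          Generally (fun P : Fin k → ℙ ℂ (Fin (n + 1 + 1) → ℂ) =>
            ImposesMaximalConditions d m P)) ∧
        (((d : ℝ) ^ (n + 1) ≤ ∑ i, (m i : ℝ) ^ (n + 1) ∨
            ∑ i, ((m i : ℝ) + n) ^ (n + 1) ≤ (d : ℝ) ^ (n + 1)) →
          Generally (fun P : Fin k → ℙ ℂ (Fin (n + 1 + 1) → ℂ) =>
            ImposesMaximalConditions d m P))) :=
  final partsE partsS n hn

end Pool.Agent.H929.BG
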