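import Pool.Agent.H929.BG.Main
import Pool.Graph.R_seed8.H350R3.MG.PLem

/-! # BG: from `Emp` and `Ind` to general points with given multiplicities -/

set_option autoImplicit false

namespace Pool.Agent.H929.BG

open Finset Pool.Agent.TH3.IR Pool.Agent.Y55.Col Pool.Agent.H929.BW

/-- the number of the points of multiplicity `v` -/
def num {k : ℕ} (m : Fin k → ℕ) (v : ℕ) : ℕ := (univ.filter fun i => m i = v).card

/-- the multiplicities which occur -/
def vals {k : ℕ} (m : Fin k → ℕ) : Finset ℕ := univ.image m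

lemma map_eq {k : ℕ} (m : Fin k → ℕ) :
    (univ : Finset (Fin k)).val.map m = ∑ v ∈ vals m, Multiset.replicate (num m v) v := by
  classical
  have h := Multiset.toFinset_sum_count_nsmul_eq ((univ : Finset (Fin k)).val.map m)
  rw [← h]
  have h1 : ((univ : Finset (Fin k)).val.map m).toFinset = vals m := by
    ext a
    simp [vals]
  rw [h1]
  refine sum_congr rfl fun v _ => ?_
  rw [Multiset.nsmul_singleton, Multiset.count_map]
  congr 1
  rw [num, card_def, filter_val]
  congr 1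
  refine Multiset.filter_congr fun i _ => ?_
  exact eq_comm

lemma sum_vals {k : ℕ} (m : Fin k → ℕ) (f : ℕ → ℝ) :
    ∑ v ∈ vals m, (num m v : ℝ) * f v = ∑ i, f (m i) := by
  rw [sum_comp f m]
  refine sum_congr rfl fun v _ => ?_
  rw [nsmul_eq_mul]
  rfl

lemma sum_low {k : ℕ} (m : Fin k → ℕ) (w : ℕ) (f : ℕ → ℝ) :
    ∑ v ∈ low (vals m) w, (num m v : ℝ) * f v = ∑ i with m i < w, f (m i) := by
  have h := sum_comp (s := univ.filter fun i => m i < w) f m
  rw [h]
  have h1 : (univ.filter fun i => m i < w).image m = low (vals m) w := by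
    ext v
    simp only [mem_image, mem_filter, mem_univ, true_and, low, vals]
    constructor
    · rintro ⟨i, hi, rfl⟩
      exact ⟨⟨i, rfl⟩, hi⟩
    · rintro ⟨⟨i, rfl⟩, hi⟩
      exact ⟨i, hi, rfl⟩
  rw [h1]
  refine sum_congr rfl fun v hv => ?_
  rw [nsmul_eq_mul]
  congr 2
  rw [num]
  congr 1
  have hvw : v < w := (mem_filter.1 hv).2
  ext i
  simp only [mem_filter, mem_univ, true_and]
  constructor
  · rintro rfl
    exact ⟨hvw, rfl⟩
  · rintro ⟨-, h⟩
    exact h

open MvPolynomial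
open scoped LinearAlgebra.Projectivization
open Pool.Agent.H350R3.MG

/-- `V_d(Γ)`: the forms of degree `d` vanishing to order at least `m i` at the `i`-th point. -/
noncomputable def forms {r k : ℕ} (d : ℕ) (m : Fin k → ℕ) (P : Fin k → ℙ ℂ (Fin (r + 1) → ℂ)) :
    Submodule ℂ (MvPolynomial (Fin (r + 1)) ℂ) :=
  homogeneousSubmodule (Fin (r + 1)) ℂ d ⊓
    Submodule.restrictScalars ℂ (⨅ i, primeIdeal (P i) ^ m i : Ideal (MvPolynomial (Fin (r + 1)) ℂ))

/-- The naive count `binom (d + r) r - ∑ binom (m i + r - 1) r`. -/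
def naive (r d : ℕ) {k : ℕ} (m : Fin k → ℕ) : ℤ :=
  ((d + r).choose r : ℤ) - ∑ i, ((m i + r - 1).choose r : ℤ)

/-- `Γ` imposes maximal conditions in degree `d`. -/
def ImposesMaximalConditions {r k : ℕ} (d : ℕ) (m : Fin k → ℕ)
    (P : Fin k → ℙ ℂ (Fin (r + 1) → ℂ)) : Prop :=
  (Module.finrank ℂ (forms d m P) : ℤ) = max 0 (naive r d m)

lemma forms_eq {r k d : ℕ} (m : Fin k → ℕ) (v : Fin k → Fin (r + 1) → ℂ) (hv : ∀ i, v i ≠ 0) :
    forms d m (fun i => Projectivization.mk ℂ (v i) (hv i)) =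
      Pool.Agent.H938R2.forms (r + 1) d m v := by
  unfold forms
  ext F
  rw [Submodule.mem_inf, Submodule.restrictScalars_mem, Submodule.mem_iInf,
    Pool.Agent.H938R2.mem_forms, mem_homogeneousSubmodule]
  have key : F.IsHomogeneous d → ∀ i,
      (F ∈ primeIdeal (Projectivization.mk ℂ (v i) (hv i)) ^ m i ↔
        Pool.Agent.H938R2.VanishesToOrder (m i) (v i) F) := by
    intro hF i
    rw [primeIdeal_mk]
    exact Pool.Agent.TH176.FB.mem_pow_iff_vanishes (hv i) ((mem_homogeneousSubmodule _ _).2 hF)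
  constructor
  · rintro ⟨h1, h2⟩
    exact ⟨h1, fun i => (key h1 i).1 (h2 i)⟩
  · rintro ⟨h1, h2⟩
    exact ⟨h1, fun i => (key h1 i).2 (h2 i)⟩

/-- from the class `Emp` to general points -/
lemma of_emp {n k d : ℕ} {m : Fin k → ℕ}
    (h : Pool.Agent.Y55.Col.Emp (n + 1) (d + 1) ((Finset.univ : Finset (Fin k)).val.map m)) :
    Generally (fun P : Fin k → ℙ ℂ (Fin (n + 1 + 1) → ℂ) => ImposesMaximalConditions d m P) := by
  obtain ⟨D, hD, h⟩ := (Pool.Agent.Y55.Col.general_of_emp h).and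
    (Pool.Agent.H938R2.forGeneral_ne_zero (by omega))
  refine generally_of_poly D hD fun v hv hp => ?_
  obtain ⟨h1, h2⟩ := h v hp
  have h3 := Pool.Agent.H938R2.finrank_forms_ge (n + 1) d m v h2
  unfold ImposesMaximalConditions naive
  rw [forms_eq _ v hv, h1, finrank_bot]
  rw [h1, finrank_bot, zero_add] at h3
  rw [max_eq_left]
  · simp
  · rw [sub_nonpos]
    exact_mod_cast h3

/-- from the class `Ind` to general points -/
lemma of_ind {n k d : ℕ} {m : Fin k → ℕ}
    (h : Pool.Agent.Y55.Col.Ind n (d + 1) ((Finset.univ : Finset (Fin k)).val.map m)) :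
    Generally (fun P : Fin k → ℙ ℂ (Fin (n + 1 + 1) → ℂ) => ImposesMaximalConditions d m P) := by
  obtain ⟨D, hD, h⟩ := Pool.Agent.Y55.Col.general_of_ind h
  refine generally_of_poly D hD fun v hv hp => ?_
  have h1 := h v hp
  have e2 : ∀ i, m i + (n + 1) - 1 = m i + n := fun i => by omega
  have h2 : (Module.finrank ℂ (forms d m (fun i => Projectivization.mk ℂ (v i) (hv i))) : ℤ) =
      naive (n + 1) d m := by
    unfold naive
    rw [forms_eq _ v hv]
    simp only [e2]
    rw [eq_sub_iff_add_eq]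
    exact_mod_cast h1
  unfold ImposesMaximalConditions
  rw [← h2, max_eq_right]
  exact Int.natCast_nonneg _

/-- the main theorem for general points -/
theorem core (pE : PartsE) (pS : PartsS) (n : ℕ) (hn : 1 ≤ n) : ∃ K₀ : ℝ, 1 ≤ K₀ ∧
    ∀ K : ℝ, K₀ ≤ K → ∀ (k d : ℕ) (m : Fin k → ℕ), 1 ≤ k → (∀ i, 1 ≤ m i) →
      K * (surf n (vals m) (num m) + ∑ w ∈ rare n K (vals m) (num m), (w : ℝ) ^ (n + 1)) ≤
        |(∑ i, PP n (m i)) - PP n (d + 1)| →
      Generally (fun P : Fin k → ℙ ℂ (Fin (n + 1 + 1) → ℂ) => ImposesMaximalConditions d m P) := by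
  obtain ⟨K₁, hK₁, h1⟩ := allE pE n hn
  obtain ⟨K₂, hK₂, h2⟩ := allS pS n hn
  refine ⟨max K₁ K₂, hK₁.trans (le_max_left _ _), fun K hK k d m hk hm hd => ?_⟩
  have hA : ∀ v ∈ vals m, 1 ≤ v := by
    intro v hv
    obtain ⟨i, -, rfl⟩ := mem_image.1 hv
    exact hm i
  have hA0 : (vals m).Nonempty := by
    have : Nonempty (Fin k) := ⟨⟨0, hk⟩⟩
    exact univ_nonempty.image m
  have e := sum_vals m fun v => PP n v
  rcases le_total 0 ((∑ i, PP n (m i)) - PP n (d + 1)) with h0 | h0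
  · rw [abs_of_nonneg h0] at hd
    refine of_emp ?_
    rw [map_eq]
    refine h1 K ((le_max_left _ _).trans hK) (vals m) (num m) d hA ?_
    rw [e]
    linarith
  · rw [abs_of_nonpos h0] at hd
    refine of_ind ?_
    rw [map_eq]
    refine h2 K ((le_max_right _ _).trans hK) (vals m) (num m) d hA0 hA ?_
    rw [e]
    linarith

end Pool.Agent.H929.BG
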