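import Pool.Agent.H929.BG.Stm

/-! # BG: the main theorem from the parts -/

set_option autoImplicit false

namespace Pool.Agent.H929.BG

open Finset Pool.Agent.TH3.IR Pool.Agent.Y55.Col Pool.Agent.H929.BW

theorem emp_le {E D : ℕ} {M M' : Multiset ℕ} (h : Emp E D M) (hM : M ≤ M') : Emp E D M' := by
  obtain ⟨N, rfl⟩ := Multiset.le_iff_exists_add.1 hM
  clear hM
  induction N using Multiset.induction_on with
  | empty => simpa using h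
  | cons b N ih =>
    rw [Multiset.add_cons]
    exact ih.point b

theorem ind_le {n D : ℕ} {M M' : Multiset ℕ} (h : Ind n D M') (hM : M ≤ M') : Ind n D M := by
  obtain ⟨N, rfl⟩ := Multiset.le_iff_exists_add.1 hM
  clear hM
  induction N using Multiset.induction_on with
  | empty => simpa using h
  | cons b N ih =>
    rw [Multiset.add_cons] at h
    exact ih h.remove

/-- the parts for emptiness -/
structure PartsE : Prop where
  ce : S_CE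
  fin : S_PEfin
  stp : S_StepE
  fn : S_FinE
  recu : S_RecE
  num : S_NumE
  red : S_RedE

/-- the parts for independence -/
structure PartsS : Prop where
  ci : S_CI
  fin : S_PSfin
  stp : S_StepS
  fn : S_FinS
  recu : S_RecS
  num : S_NumS
  red : S_RedS

/-- emptiness for admissible numbers of points -/
theorem mainE (p : PartsE) (n : ℕ) (hn : 1 ≤ n) : ∃ K : ℝ, 1 ≤ K ∧
    ∀ (A : Finset ℕ) (r : ℕ → ℕ) (d : ℕ), Adm n K A r →
      PP n (d + 1) + K * surf n A r ≤ ∑ v ∈ A, r v * PP n v →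
      Emp (n + 1) (d + 1) (∑ v ∈ A, Multiset.replicate (r v) v) := by
  obtain ⟨Λ, hΛ, hce⟩ := p.ce n hn
  obtain ⟨C₁, h1⟩ := p.stp n Λ hn hΛ hce
  obtain ⟨C₂, h2⟩ := p.fn n Λ hn hΛ
  obtain ⟨C, hC0, hC1, hC2⟩ : ∃ C : ℝ, 0 ≤ C ∧ C₁ ≤ C ∧ C₂ ≤ C :=
    ⟨max 0 (max C₁ C₂), le_max_left _ _, (le_max_left _ _).trans (le_max_right _ _),
      (le_max_right _ _).trans (le_max_right _ _)⟩
  obtain ⟨K, hK, h3⟩ := p.num n Λ C hn hΛ hC0
  refine ⟨K, hK, fun A r d hA hd => ?_⟩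
  have hd' : (d : ℝ) ^ (n + 1) + K * surf n A r ≤ ∑ v ∈ A, r v * PP n v := by
    have h4 : (d : ℝ) ^ (n + 1) ≤ PP n (d + 1) := by
      have h5 : ((d : ℝ) + 1) ^ (n + 1) ≤ PP n ((d : ℝ) + 1) := PP_lower n (by positivity)
      have h6 : (d : ℝ) ^ (n + 1) ≤ ((d : ℝ) + 1) ^ (n + 1) :=
        pow_le_pow_left₀ (Nat.cast_nonneg d) (by linarith) _
      exact h6.trans h5
    linarith
  obtain ⟨d', β, h, hdd, hD, hβ, hin⟩ := h3 A r d hA hd'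
  have h5 := p.recu n Λ C hn hΛ hC0 (h1 C hC1) (h2 C hC2) A r β h _ hD hin
  rw [hβ] at h5
  exact (p.fin n _ d' hn h5).mono (by omega)

/-- independence for admissible numbers of points -/
theorem mainS (p : PartsS) (n : ℕ) (hn : 1 ≤ n) : ∃ K : ℝ, 1 ≤ K ∧
    ∀ (A : Finset ℕ) (r : ℕ → ℕ) (d : ℕ), Adm n K A r →
      (∑ v ∈ A, r v * PP n v) + K * surf n A r ≤ PP n (d + 1) →
      Ind n (d + 1) (∑ v ∈ A, Multiset.replicate (r v) v) := by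
  obtain ⟨Λ₀, hΛ₀, hci⟩ := p.ci n hn
  have hn0 : (0 : ℝ) ≤ n := Nat.cast_nonneg n
  obtain ⟨Λ, hΛdef⟩ : ∃ Λ : ℝ, Λ = Λ₀ + 10 * (n + 1) := ⟨_, rfl⟩
  have hΛ : 1 ≤ Λ := by rw [hΛdef]; linarith
  obtain ⟨C₁, h1⟩ := p.stp n Λ₀ Λ hn hΛ₀ hΛdef.ge hci
  obtain ⟨C₂, h2⟩ := p.fn n Λ hn (by rw [hΛdef]; linarith)
  obtain ⟨C, hC0, hC1, hC2⟩ : ∃ C : ℝ, 0 ≤ C ∧ C₁ ≤ C ∧ C₂ ≤ C :=
    ⟨max 0 (max C₁ C₂), le_max_left _ _, (le_max_left _ _).trans (le_max_right _ _),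
      (le_max_right _ _).trans (le_max_right _ _)⟩
  obtain ⟨K, hK, h3⟩ := p.num n Λ C hn hΛ hC0
  refine ⟨K, hK, fun A r d hA hd => ?_⟩
  have hd' : (∑ v ∈ A, r v * PP n v) + K * surf n A r ≤ ((d : ℝ) + 1 + n) ^ (n + 1) :=
    hd.trans (PP_upper n (by positivity))
  obtain ⟨β, h, hD, hβ, hin⟩ := h3 A r d hA hd'
  have h5 := p.recu n Λ C hn hΛ hC0 (h1 C hC1) (h2 C hC2) A r β h _ hD
    (fun v hv => Or.inr (hin v hv))
  rw [hβ] at h5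
  have e : (d : ℝ) / 3 + (2 * n + 3) - (4 * n + 5) = (d : ℝ) / 3 - 2 * (n + 1) := by ring
  rw [e] at h5
  exact p.fin n _ d hn h5

/-- emptiness, arbitrary numbers of points -/
theorem allE (p : PartsE) (n : ℕ) (hn : 1 ≤ n) : ∃ K₀ : ℝ, 1 ≤ K₀ ∧ ∀ K : ℝ, K₀ ≤ K →
    ∀ (A : Finset ℕ) (r : ℕ → ℕ) (d : ℕ), (∀ v ∈ A, 1 ≤ v) →
      PP n (d + 1) + K * (surf n A r + ∑ w ∈ rare n K A r, (w : ℝ) ^ (n + 1)) ≤
        ∑ v ∈ A, r v * PP n v →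
      Emp (n + 1) (d + 1) (∑ v ∈ A, Multiset.replicate (r v) v) := by
  obtain ⟨K₀, hK₀, h1⟩ := mainE p n hn
  obtain ⟨K₁, hK₁, h2⟩ := p.red n K₀ hn hK₀
  refine ⟨K₁, hK₁, fun K hK A r d hA hd => ?_⟩
  have hs : 0 ≤ surf n A r := sum_nonneg fun v _ => Real.rpow_nonneg (by positivity) _
  have hr0 : 0 ≤ ∑ w ∈ rare n K A r, (w : ℝ) ^ (n + 1) := sum_nonneg fun v _ => by positivity
  have hsub : rare n K₁ A r ⊆ rare n K A r := by
    classical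
    intro w hw
    unfold rare at hw ⊢
    rw [mem_filter] at hw ⊢
    refine ⟨hw.1, hw.2.imp (fun h => lt_of_lt_of_le h hK) fun h => ⟨h.1, lt_of_lt_of_le h.2 ?_⟩⟩
    exact mul_le_mul_of_nonneg_right hK (by positivity)
  have hr1 : ∑ w ∈ rare n K₁ A r, (w : ℝ) ^ (n + 1) ≤ ∑ w ∈ rare n K A r, (w : ℝ) ^ (n + 1) :=
    sum_le_sum_of_subset_of_nonneg hsub fun v _ _ => by positivity
  have hr2 : 0 ≤ ∑ w ∈ rare n K₁ A r, (w : ℝ) ^ (n + 1) := sum_nonneg fun v _ => by positivity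
  have hd1 : PP n (d + 1) + K₁ * (surf n A r + ∑ w ∈ rare n K₁ A r, (w : ℝ) ^ (n + 1)) ≤
        ∑ v ∈ A, r v * PP n v := by
    refine le_trans ?_ hd
    have h3 : K₁ * (surf n A r + ∑ w ∈ rare n K₁ A r, (w : ℝ) ^ (n + 1)) ≤
      K * (surf n A r + ∑ w ∈ rare n K A r, (w : ℝ) ^ (n + 1)) :=
      mul_le_mul hK (by linarith) (by linarith) (by linarith)
    linarith
  have hQ : 0 < PP n ((d : ℝ) + 1) := prod_pos fun j _ => by positivity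
  obtain ⟨A', hA', hadm, hin⟩ := h2 A r _ hQ hA hd1
  exact emp_le (h1 A' r d hadm hin) (sum_le_sum_of_subset hA')

/-- independence, arbitrary numbers of points -/
theorem allS (p : PartsS) (n : ℕ) (hn : 1 ≤ n) : ∃ K₀ : ℝ, 1 ≤ K₀ ∧ ∀ K : ℝ, K₀ ≤ K →
    ∀ (A : Finset ℕ) (r : ℕ → ℕ) (d : ℕ), A.Nonempty → (∀ v ∈ A, 1 ≤ v) →
      (∑ v ∈ A, r v * PP n v) + K * (surf n A r + ∑ w ∈ rare n K A r, (w : ℝ) ^ (n + 1)) ≤
        PP n (d + 1) →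
      Ind n (d + 1) (∑ v ∈ A, Multiset.replicate (r v) v) := by
  obtain ⟨K₀, hK₀, h1⟩ := mainS p n hn
  obtain ⟨K₁, hK₁, h2⟩ := p.red n K₀ hn hK₀
  refine ⟨K₁, hK₁, fun K hK A r d hA0 hA hd => ?_⟩
  have hs : 0 ≤ surf n A r := sum_nonneg fun v _ => Real.rpow_nonneg (by positivity) _
  have hsub : rare n K₁ A r ⊆ rare n K A r := by
    classical
    intro w hw
    unfold rare at hw ⊢
    rw [mem_filter] at hw ⊢
    refine ⟨hw.1, hw.2.imp (fun h => lt_of_lt_of_le h hK) fun h => ⟨h.1, lt_of_lt_of_le h.2 ?_⟩⟩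
    exact mul_le_mul_of_nonneg_right hK (by positivity)
  have hr1 : ∑ w ∈ rare n K₁ A r, (w : ℝ) ^ (n + 1) ≤ ∑ w ∈ rare n K A r, (w : ℝ) ^ (n + 1) :=
    sum_le_sum_of_subset_of_nonneg hsub fun v _ _ => by positivity
  have hr2 : 0 ≤ ∑ w ∈ rare n K₁ A r, (w : ℝ) ^ (n + 1) := sum_nonneg fun v _ => by positivity
  have hd1 : (∑ v ∈ A, r v * PP n v) +
      K₁ * (surf n A r + ∑ w ∈ rare n K₁ A r, (w : ℝ) ^ (n + 1)) ≤ PP n (d + 1) := by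
    refine le_trans ?_ hd
    have h3 : K₁ * (surf n A r + ∑ w ∈ rare n K₁ A r, (w : ℝ) ^ (n + 1)) ≤
      K * (surf n A r + ∑ w ∈ rare n K A r, (w : ℝ) ^ (n + 1)) :=
      mul_le_mul hK (by linarith) (by linarith) (by linarith)
    linarith
  obtain ⟨r', hr', hadm, hin⟩ := h2 A r _ hA0 hA hd1
  refine ind_le (h1 A r' d hadm hin) (sum_le_sum fun v hv => ?_)
  exact (Multiset.replicate_le_replicate v).2 (hr' v hv)

end Pool.Agent.H929.BG
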