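import Pool.Agent.H929.BG.Win

/-! # BG: the final statement from the parts -/

set_option autoImplicit false

namespace Pool.Agent.H929.BG

open Finset MvPolynomial
open scoped LinearAlgebra.Projectivization
open Pool.Agent.H350R3.MG Pool.Agent.H929.BW

/-- The volume of the points of multiplicity `v`. -/
noncomputable def vol (r : ℕ) {k : ℕ} (m : Fin k → ℕ) (v : ℕ) : ℝ :=
  ((univ.filter fun i => m i = v).card : ℝ) * (v : ℝ) ^ r

/-- The multiplicity `w` is rare. -/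
def Rare (r : ℕ) (K : ℝ) {k : ℕ} (m : Fin k → ℕ) (w : ℕ) : Prop :=
  ((univ.filter fun i => m i = w).card : ℝ) < K ∨
    ((∃ i, m i < w) ∧ ∑ i with m i < w, (m i : ℝ) ^ r < K * (w : ℝ) ^ r)

lemma mem_rare {n k : ℕ} {K : ℝ} {m : Fin k → ℕ} {w : ℕ} (hw : w ∈ vals m) :
    w ∈ rare n K (vals m) (num m) ↔ Rare (n + 1) K m w := by
  classical
  unfold rare Rare
  rw [mem_filter, sum_low m w fun v => (v : ℝ) ^ (n + 1)]
  have h : (low (vals m) w).Nonempty ↔ ∃ i, m i < w := by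
    constructor
    · rintro ⟨u, hu⟩
      obtain ⟨h1, h2⟩ := mem_filter.1 hu
      obtain ⟨i, -, rfl⟩ := mem_image.1 h1
      exact ⟨i, h2⟩
    · rintro ⟨i, hi⟩
      exact ⟨m i, mem_filter.2 ⟨mem_image_of_mem m (mem_univ i), hi⟩⟩
  rw [h]
  exact ⟨fun h => h.2, fun h => ⟨hw, h⟩⟩

lemma sum_PP {n k : ℕ} (m : Fin k → ℕ) (d : ℕ) :
    (∑ i, PP n (m i)) - PP n (d + 1) = -((n + 1).factorial * (naive (n + 1) d m : ℝ)) := by
  have h1 : ∑ i, PP n (m i) =
      (n + 1).factorial * ∑ i, (((m i + (n + 1) - 1).choose (n + 1) : ℕ) : ℝ) := by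
    rw [mul_sum]
    refine sum_congr rfl fun i _ => ?_
    rw [← PP_nat]
    push_cast
    rw [show n + 1 + m i - 1 = m i + (n + 1) - 1 by omega]
  have h2 : PP n ((d : ℝ) + 1) = (n + 1).factorial * (((d + (n + 1)).choose (n + 1) : ℕ) : ℝ) := by
    rw [← PP_nat']
    push_cast
    rw [show n + 1 + d = d + (n + 1) by omega]
  rw [h1, h2]
  unfold naive
  push_cast
  ring

theorem final (pE : PartsE) (pS : PartsS) (n : ℕ) (hn : 1 ≤ n) : ∃ K : ℝ, 0 < K ∧
    ∀ (k : ℕ) (m : Fin k → ℕ), 1 ≤ k → (∀ i, 1 ≤ m i) →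
      (∀ (d : ℕ) (R : Finset ℕ), (∀ w ∈ vals m, Rare (n + 1) K m w → w ∈ R) →
        K * (∑ v ∈ vals m, vol (n + 1) m v ^ ((n : ℝ) / (n + 1)) +
            ∑ w ∈ R, (w : ℝ) ^ (n + 1)) ≤ |(naive (n + 1) d m : ℝ)| →
        Generally (fun P : Fin k → ℙ ℂ (Fin (n + 1 + 1) → ℂ) =>
          ImposesMaximalConditions d m P)) ∧
      ((∀ i, ¬ Rare (n + 1) K m (m i)) → ∀ d : ℕ,
        (∀ T : ℝ, 0 ≤ T → T ^ (n + 1) = ∑ i, PP n (m i) →
          K * ((vals m).card : ℝ) ^ ((1 : ℝ) / (n + 1)) ≤ |(d : ℝ) - T| →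
          Generally (fun P : Fin k → ℙ ℂ (Fin (n + 1 + 1) → ℂ) =>
            ImposesMaximalConditions d m P)) ∧
        (((d : ℝ) ^ (n + 1) ≤ ∑ i, (m i : ℝ) ^ (n + 1) ∨
            ∑ i, ((m i : ℝ) + n) ^ (n + 1) ≤ (d : ℝ) ^ (n + 1)) →
          Generally (fun P : Fin k → ℙ ℂ (Fin (n + 1 + 1) → ℂ) =>
            ImposesMaximalConditions d m P))) := by
  obtain ⟨K₀, hK₀, hcore⟩ := core pE pS n hn
  have hn0 : (0 : ℝ) ≤ n := Nat.cast_nonneg n
  obtain ⟨L, hL⟩ : ∃ L : ℝ, L = K₀ + (n + 1) ^ 2 * (n + 2) ^ n := ⟨_, rfl⟩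
  have hL1 : 1 ≤ L := by
    rw [hL]
    have : (0 : ℝ) ≤ (n + 1) ^ 2 * (n + 2) ^ n := by positivity
    linarith
  obtain ⟨K, hKdef⟩ : ∃ K : ℝ, K = K₀ + n + 1 + L ^ (n + 1) := ⟨_, rfl⟩
  have hLN : 1 ≤ L ^ (n + 1) := one_le_pow₀ hL1
  have hKK : K₀ ≤ K := by rw [hKdef]; linarith
  have hK0 : 0 < K := by linarith
  refine ⟨K, hK0, fun k m hk hm => ⟨fun d R hR hd => ?_, fun hrare d => ?_⟩⟩
  · refine hcore K hKK k d m hk hm ?_
    rw [sum_PP, abs_neg, abs_mul, abs_of_pos (by positivity : (0 : ℝ) < (n + 1).factorial)]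
    have h1 : ∑ w ∈ rare n K (vals m) (num m), (w : ℝ) ^ (n + 1) ≤ ∑ w ∈ R, (w : ℝ) ^ (n + 1) := by
      refine sum_le_sum_of_subset_of_nonneg (fun w hw => ?_) fun v _ _ => by positivity
      classical
      have hw' : w ∈ vals m := by
        unfold rare at hw
        exact (mem_filter.1 hw).1
      exact hR w hw' ((mem_rare hw').1 hw)
    have h2 : surf n (vals m) (num m) = ∑ v ∈ vals m, vol (n + 1) m v ^ ((n : ℝ) / (n + 1)) := rfl
    have h3 : K * (surf n (vals m) (num m) +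
        ∑ w ∈ rare n K (vals m) (num m), (w : ℝ) ^ (n + 1)) ≤ |(naive (n + 1) d m : ℝ)| := by
      refine le_trans (mul_le_mul_of_nonneg_left ?_ hK0.le) hd
      rw [h2]
      linarith
    refine h3.trans ?_
    have h4 : (1 : ℝ) ≤ (n + 1).factorial := by exact_mod_cast Nat.factorial_pos _
    have h5 := abs_nonneg (naive (n + 1) d m : ℝ)
    nlinarith
  · have hrare0 : rare n K₀ (vals m) (num m) = ∅ := by
      classical
      rw [eq_empty_iff_forall_notMem]
      intro w hw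
      have hw' : w ∈ vals m := by
        unfold rare at hw
        exact (mem_filter.1 hw).1
      have h1 := (mem_rare hw').1 hw
      obtain ⟨i, -, rfl⟩ := mem_image.1 hw'
      refine hrare i (h1.imp (fun h => lt_of_lt_of_le h hKK) fun h => ⟨h.1, lt_of_lt_of_le h.2 ?_⟩)
      exact mul_le_mul_of_nonneg_right hKK (by positivity)
    have hmany : ∀ v ∈ vals m, K ≤ num m v := by
      intro v hv
      obtain ⟨i, -, rfl⟩ := mem_image.1 hv
      by_contra hcon
      push Not at hcon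
      exact hrare i (Or.inl hcon)
    have key : ∀ d : ℕ, K₀ * surf n (vals m) (num m) ≤ |(∑ i, PP n (m i)) - PP n (d + 1)| →
        Generally (fun P : Fin k → ℙ ℂ (Fin (n + 1 + 1) → ℂ) =>
          ImposesMaximalConditions d m P) := by
      intro d hd
      refine hcore K₀ le_rfl k d m hk hm ?_
      rw [hrare0, sum_empty, add_zero]
      exact hd
    refine ⟨fun T hT hTN h => key d ?_, fun h => key d ?_⟩
    · exact win hn hK₀ hT hk hTN (by rw [hKdef]; linarith) h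
    · refine sandwich hn hk hm hK0 ?_ hmany h
      rw [← hL]
      have h1 : L = (L ^ (n + 1)) ^ ((1 : ℝ) / (n + 1)) := by
        rw [← Real.rpow_natCast L (n + 1), ← Real.rpow_mul (by linarith)]
        have : (((n + 1 : ℕ) : ℝ)) * ((1 : ℝ) / (n + 1)) = 1 := by
          push_cast
          field_simp
        rw [this, Real.rpow_one]
      have h2 : (L ^ (n + 1)) ^ ((1 : ℝ) / (n + 1)) ≤ K ^ ((1 : ℝ) / (n + 1)) := by
        refine Real.rpow_le_rpow (by positivity) ?_ (by positivity)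
        rw [hKdef]
        linarith
      exact h1.le.trans h2

end Pool.Agent.H929.BG
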