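import Pool.Agent.H929.BW.All
import Pool.Agent.H929.BW.Crit

/-!
# BG: fat points of several multiplicities in projective spaces, statements

`N = n + 1` is the dimension, `PP n x = x (x + 1) ⋯ (x + n)`.
-/

set_option autoImplicit false

namespace Pool.Agent.H929.BG

open Finset Pool.Agent.TH3.IR Pool.Agent.Y55.Col Pool.Agent.H929.BW

/-- the geometric mean of `m, m + 1, …, m + n` -/
noncomputable def gg (n m : ℕ) : ℝ := (PP n m) ^ ((1 : ℝ) / (n + 1))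

lemma PP_nonneg' (n m : ℕ) : 0 ≤ PP n m := PP_nonneg n (Nat.cast_nonneg m)

lemma gg_nonneg (n m : ℕ) : 0 ≤ gg n m := Real.rpow_nonneg (PP_nonneg' n m) _

lemma gg_pow (n m : ℕ) : gg n m ^ (n + 1) = PP n m := by
  unfold gg
  rw [← Real.rpow_natCast, ← Real.rpow_mul (PP_nonneg' n m), one_div]
  push_cast
  rw [inv_mul_cancel₀ (by positivity), Real.rpow_one]

lemma le_gg (n m : ℕ) : (m : ℝ) ≤ gg n m := by
  refine le_of_pow_le_pow_left₀ (n := n + 1) (by omega) (gg_nonneg n m) ?_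
  rw [gg_pow]
  exact PP_lower n (Nat.cast_nonneg m)

lemma gg_le (n m : ℕ) : gg n m ≤ m + n / 2 := by
  refine le_of_pow_le_pow_left₀ (n := n + 1) (by omega) (by positivity) ?_
  rw [gg_pow]
  exact PP_mid n (Nat.cast_nonneg m)

lemma gg_mono (n : ℕ) {u v : ℕ} (h : u ≤ v) : gg n u ≤ gg n v := by
  refine le_of_pow_le_pow_left₀ (n := n + 1) (by omega) (gg_nonneg n v) ?_
  rw [gg_pow, gg_pow]
  unfold PP
  refine prod_le_prod (fun j _ => by positivity) fun j _ => ?_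
  have : (u : ℝ) ≤ v := by exact_mod_cast h
  linarith

/-- clusters of `t ^ (n + 1)` points, emptiness -/
def CE (n m : ℕ) (Λ : ℝ) : Prop := ∀ t : ℕ, 1 ≤ t →
  ∃ M : ℕ, Emp (n + 1) M (Multiset.replicate (t ^ (n + 1)) m) ∧ t * gg n m - Λ ≤ M

/-- clusters of `t ^ (n + 1)` points, independence -/
def CI (n m : ℕ) (Λ : ℝ) : Prop := ∀ t : ℕ, 1 ≤ t →
  ∃ M : ℕ, Ind n M (Multiset.replicate (t ^ (n + 1)) m) ∧ (M : ℝ) ≤ t * gg n m + Λ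

/-- clusters with a bounded error, emptiness -/
def S_CE : Prop := ∀ n : ℕ, 1 ≤ n → ∃ Λ : ℝ, 1 ≤ Λ ∧ ∀ m : ℕ, 1 ≤ m → CE n m Λ

/-- clusters with a bounded error, independence -/
def S_CI : Prop := ∀ n : ℕ, 1 ≤ n → ∃ Λ : ℝ, 1 ≤ Λ ∧ ∀ m : ℕ, 1 ≤ m → CI n m Λ

/-- points of the multiplicities `M` fill the simplices with all slopes `β`, height `H` -/
def PE (n : ℕ) (M : Multiset ℕ) (β H : ℝ) : Prop :=
  ∃ (ι : Type) (_ : Fintype ι) (w : ι → ℕ) (N : ι → Multiset ℕ), GE n w β H ∧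
    (∀ i, Emp (n + 1) (w i) (N i)) ∧ ∑ i, N i ≤ M

/-- points of the multiplicities `M` are independent on the simplices with all slopes `β`,
height `H` -/
def PS (n : ℕ) (M : Multiset ℕ) (β H : ℝ) : Prop :=
  ∃ (ι : Type) (_ : Fintype ι) (w : ι → ℕ) (N : ι → Multiset ℕ), GS n w β H ∧
    (∀ i, Ind n (w i) (N i)) ∧ M ≤ ∑ i, N i

/-- two parts, emptiness -/
def S_PEadd : Prop := ∀ (n : ℕ) (M M' : Multiset ℕ) (a b H : ℝ), 1 ≤ a → 1 ≤ b →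
  PE n M a H → PE n M' b H → PE n (M + M') (a + b) H

/-- nodal step, emptiness -/
def S_PEnode : Prop := ∀ (n : ℕ) (M : Multiset ℕ) (b H : ℝ), 5 / 2 ≤ b →
  PE n M (2 ^ (n + 1) * b) (H / 2) → PE n M b H

/-- the last step, emptiness -/
def S_PEfin : Prop := ∀ (n : ℕ) (M : Multiset ℕ) (d : ℕ), 1 ≤ n →
  PE n M (3 ^ (n + 1)) ((d : ℝ) / 3) → Emp (n + 1) (d + 1) M

/-- two parts, independence -/
def S_PSadd : Prop := ∀ (n : ℕ) (M M' : Multiset ℕ) (a b H H' : ℝ), 1 ≤ a → 1 ≤ b → H' < H →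
  PS n M a H' → PS n M' b H' → PS n (M + M') (a + b) H

/-- larger heights, independence -/
def S_PSmono : Prop := ∀ (n : ℕ) (M M' : Multiset ℕ) (b H H' : ℝ), 0 < b → H' ≤ H → M ≤ M' →
  PS n M' b H' → PS n M b H

/-- nodal step, independence -/
def S_PSnode : Prop := ∀ (n : ℕ) (M : Multiset ℕ) (b H : ℝ), 5 / 2 ≤ b →
  PS n M (2 ^ (n + 1) * b) (H / 2 - 2 * (n + 1)) → PS n M b H

/-- the last step, independence -/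
def S_PSfin : Prop := ∀ (n : ℕ) (M : Multiset ℕ) (d : ℕ), 1 ≤ n →
  PS n M (3 ^ (n + 1)) ((d : ℝ) / 3 - 2 * (n + 1)) → Ind n (d + 1) M

/-- one step for one group of points, emptiness -/
def StepE (n : ℕ) (Λ C : ℝ) : Prop := ∀ (m r : ℕ) (β H : ℝ), 1 ≤ m → 21 / 4 ≤ β →
  β ≤ 3 ^ (n + 2) → 12 * (gg n m + Λ) ≤ H →
  β * H ^ (n + 1) + C * H ^ n ≤ r * gg n m ^ (n + 1) →
  ∃ (a : ℝ) (r₁ r₂ : ℕ), 5 / 2 ≤ a ∧ 5 / 2 ≤ β - a ∧ β - a ≤ 21 / 4 ∧ r₁ + r₂ = r ∧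
    PE n (Multiset.replicate r₁ m) a H ∧
    (β - a) * H ^ (n + 1) + C * (H / 2) ^ n ≤ r₂ * gg n m ^ (n + 1)

/-- the last step for one group of points, emptiness -/
def FinE (n : ℕ) (Λ C : ℝ) : Prop := ∀ (m r : ℕ) (β H : ℝ), 1 ≤ m → 5 / 2 ≤ β →
  β ≤ 3 ^ (n + 2) → 12 * (gg n m + Λ) ≤ H → H ≤ 24 * (gg n m + Λ) →
  β * H ^ (n + 1) + C * H ^ n ≤ r * gg n m ^ (n + 1) → PE n (Multiset.replicate r m) β H

def S_StepE : Prop := ∀ (n : ℕ) (Λ : ℝ), 1 ≤ n → 1 ≤ Λ → (∀ m : ℕ, 1 ≤ m → CE n m Λ) →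
  ∃ C₀ : ℝ, ∀ C : ℝ, C₀ ≤ C → StepE n Λ C

def S_FinE : Prop := ∀ (n : ℕ) (Λ : ℝ), 1 ≤ n → 1 ≤ Λ →
  ∃ C₀ : ℝ, ∀ C : ℝ, C₀ ≤ C → FinE n Λ C

/-- the smaller elements -/
def low (A : Finset ℕ) (w : ℕ) : Finset ℕ := A.filter (· < w)

/-- the numerical conditions for the recursion (with the logarithmic structure of the groups):
`β v` is the slope of the group `v`, and `h v` is the height at which the group `v` is used for the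
first time -/
structure Data (n : ℕ) (Λ : ℝ) (A : Finset ℕ) (β h : ℕ → ℝ) (X : ℝ) : Prop where
  ne : A.Nonempty
  one : ∀ v ∈ A, 1 ≤ v
  big : ∀ v ∈ A, 12 * (gg n v + Λ) ≤ X
  hbig : ∀ v ∈ A, 24 * (gg n v + Λ) ≤ h v
  used : ∀ v ∈ A, X ≤ h v → 5 / 2 ≤ β v ∧ β v ≤ 3 ^ (n + 2)
  unused : ∀ v ∈ A, h v < X → β v * X ^ (n + 1) = 5 / 2 * h v ^ (n + 1)
  lower : ∀ w ∈ A, (low A w).Nonempty →
    (24 * (gg n w + Λ)) ^ (n + 1) ≤ ∑ u ∈ low A w, h u ^ (n + 1)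
  total : (∃ u ∈ A, X ≤ h u) ∨ X ^ (n + 1) ≤ ∑ u ∈ A, h u ^ (n + 1)

/-- the recursion, emptiness -/
def S_RecE : Prop := ∀ (n : ℕ) (Λ C : ℝ), 1 ≤ n → 1 ≤ Λ → 0 ≤ C → StepE n Λ C → FinE n Λ C →
  ∀ (A : Finset ℕ) (r : ℕ → ℕ) (β h : ℕ → ℝ) (H : ℝ), Data n Λ A β h H →
    (∀ v ∈ A, β v * H ^ (n + 1) + C * (min H (h v)) ^ n ≤ r v * gg n v ^ (n + 1)) →
    PE n (∑ v ∈ A, Multiset.replicate (r v) v) (∑ v ∈ A, β v) H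

/-- one step for one group of points, independence (the height is `X - (4 n + 6)`) -/
def StepS (n : ℕ) (Λ C : ℝ) : Prop := ∀ (m r : ℕ) (β X : ℝ), 1 ≤ m → 21 / 4 ≤ β →
  β ≤ 3 ^ (n + 2) → 12 * (gg n m + Λ) ≤ X →
  (r = 0 ∨ r * gg n m ^ (n + 1) + C * X ^ n ≤ β * X ^ (n + 1)) →
  ∃ (a : ℝ) (r₁ r₂ : ℕ), 5 / 2 ≤ a ∧ 5 / 2 ≤ β - a ∧ β - a ≤ 21 / 4 ∧ r ≤ r₁ + r₂ ∧
    PS n (Multiset.replicate r₁ m) a (X - (4 * n + 6)) ∧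
    (r₂ = 0 ∨ r₂ * gg n m ^ (n + 1) + C * (X / 2) ^ n ≤ (β - a) * X ^ (n + 1))

/-- the last step for one group of points, independence -/
def FinS (n : ℕ) (Λ C : ℝ) : Prop := ∀ (m r : ℕ) (β X : ℝ), 1 ≤ m → 5 / 2 ≤ β →
  β ≤ 3 ^ (n + 2) → 12 * (gg n m + Λ) ≤ X → X ≤ 24 * (gg n m + Λ) →
  (r = 0 ∨ r * gg n m ^ (n + 1) + C * X ^ n ≤ β * X ^ (n + 1)) →
  PS n (Multiset.replicate r m) β (X - (4 * n + 6))

/-- here `Λ` is at least `10 (n + 1)` more than the constant of the clusters -/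
def S_StepS : Prop := ∀ (n : ℕ) (Λ₀ Λ : ℝ), 1 ≤ n → 1 ≤ Λ₀ → Λ₀ + 10 * (n + 1) ≤ Λ →
  (∀ m : ℕ, 1 ≤ m → CI n m Λ₀) → ∃ C₀ : ℝ, ∀ C : ℝ, C₀ ≤ C → StepS n Λ C

def S_FinS : Prop := ∀ (n : ℕ) (Λ : ℝ), 1 ≤ n → 10 * (n + 1) ≤ Λ →
  ∃ C₀ : ℝ, ∀ C : ℝ, C₀ ≤ C → FinS n Λ C

/-- the recursion, independence -/
def S_RecS : Prop := ∀ (n : ℕ) (Λ C : ℝ), 1 ≤ n → 1 ≤ Λ → 0 ≤ C → StepS n Λ C → FinS n Λ C →
  ∀ (A : Finset ℕ) (r : ℕ → ℕ) (β h : ℕ → ℝ) (X : ℝ), Data n Λ A β h X →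
    (∀ v ∈ A, r v = 0 ∨ r v * gg n v ^ (n + 1) + C * (min X (h v)) ^ n ≤ β v * X ^ (n + 1)) →
    PS n (∑ v ∈ A, Multiset.replicate (r v) v) (∑ v ∈ A, β v) (X - (4 * n + 5))

/-- the sum of the surfaces of the groups -/
noncomputable def surf (n : ℕ) (A : Finset ℕ) (r : ℕ → ℕ) : ℝ :=
  ∑ v ∈ A, ((r v : ℝ) * (v : ℝ) ^ (n + 1)) ^ ((n : ℝ) / (n + 1))

/-- admissible numbers of points: every multiplicity occurs at least `K` times, and the volume of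
the points with smaller multiplicities is at least `K w ^ (n + 1)` -/
structure Adm (n : ℕ) (K : ℝ) (A : Finset ℕ) (r : ℕ → ℕ) : Prop where
  ne : A.Nonempty
  one : ∀ v ∈ A, 1 ≤ v
  many : ∀ v ∈ A, K ≤ r v
  lower : ∀ w ∈ A, (low A w).Nonempty →
    K * (w : ℝ) ^ (n + 1) ≤ ∑ u ∈ low A w, (r u : ℝ) * (u : ℝ) ^ (n + 1)

/-- the initial data, emptiness -/
def S_NumE : Prop := ∀ (n : ℕ) (Λ C : ℝ), 1 ≤ n → 1 ≤ Λ → 0 ≤ C → ∃ K : ℝ, 1 ≤ K ∧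
  ∀ (A : Finset ℕ) (r : ℕ → ℕ) (d : ℕ), Adm n K A r →
    (d : ℝ) ^ (n + 1) + K * surf n A r ≤ ∑ v ∈ A, r v * PP n v →
    ∃ (d' : ℕ) (β h : ℕ → ℝ), d ≤ d' ∧ Data n Λ A β h ((d' : ℝ) / 3) ∧
      ∑ v ∈ A, β v = 3 ^ (n + 1) ∧
      ∀ v ∈ A, β v * ((d' : ℝ) / 3) ^ (n + 1) + C * (min ((d' : ℝ) / 3) (h v)) ^ n ≤
        r v * gg n v ^ (n + 1)

/-- the initial data, independence -/
def S_NumS : Prop := ∀ (n : ℕ) (Λ C : ℝ), 1 ≤ n → 1 ≤ Λ → 0 ≤ C → ∃ K : ℝ, 1 ≤ K ∧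
  ∀ (A : Finset ℕ) (r : ℕ → ℕ) (d : ℕ), Adm n K A r →
    (∑ v ∈ A, r v * PP n v) + K * surf n A r ≤ (d + 1 + n) ^ (n + 1) →
    ∃ (β h : ℕ → ℝ), Data n Λ A β h ((d : ℝ) / 3 + (2 * n + 3)) ∧
      ∑ v ∈ A, β v = 3 ^ (n + 1) ∧
      ∀ v ∈ A, r v * gg n v ^ (n + 1) + C * (min ((d : ℝ) / 3 + (2 * n + 3)) (h v)) ^ n ≤
        β v * ((d : ℝ) / 3 + (2 * n + 3)) ^ (n + 1)

/-- the rare multiplicities: those which occur less than `K` times, and those such that the volume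
of the points with smaller multiplicities is less than `K w ^ (n + 1)` (but not zero) -/
noncomputable def rare (n : ℕ) (K : ℝ) (A : Finset ℕ) (r : ℕ → ℕ) : Finset ℕ :=
  open Classical in
  A.filter fun w => (r w : ℝ) < K ∨ ((low A w).Nonempty ∧
    ∑ u ∈ low A w, (r u : ℝ) * (u : ℝ) ^ (n + 1) < K * (w : ℝ) ^ (n + 1))

/-- the rare multiplicities are removed, emptiness -/
def S_RedE : Prop := ∀ (n : ℕ) (K₀ : ℝ), 1 ≤ n → 1 ≤ K₀ → ∃ K : ℝ, 1 ≤ K ∧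
  ∀ (A : Finset ℕ) (r : ℕ → ℕ) (Q : ℝ), 0 < Q → (∀ v ∈ A, 1 ≤ v) →
    Q + K * (surf n A r + ∑ w ∈ rare n K A r, (w : ℝ) ^ (n + 1)) ≤ ∑ v ∈ A, r v * PP n v →
    ∃ A' : Finset ℕ, A' ⊆ A ∧ Adm n K₀ A' r ∧ Q + K₀ * surf n A' r ≤ ∑ v ∈ A', r v * PP n v

/-- points are added to the rare multiplicities, independence -/
def S_RedS : Prop := ∀ (n : ℕ) (K₀ : ℝ), 1 ≤ n → 1 ≤ K₀ → ∃ K : ℝ, 1 ≤ K ∧
  ∀ (A : Finset ℕ) (r : ℕ → ℕ) (Q : ℝ), A.Nonempty → (∀ v ∈ A, 1 ≤ v) →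
    (∑ v ∈ A, r v * PP n v) + K * (surf n A r + ∑ w ∈ rare n K A r, (w : ℝ) ^ (n + 1)) ≤ Q →
    ∃ r' : ℕ → ℕ, (∀ v ∈ A, r v ≤ r' v) ∧ Adm n K₀ A r' ∧
      (∑ v ∈ A, r' v * PP n v) + K₀ * surf n A r' ≤ Q

end Pool.Agent.H929.BG
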