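import Pool.Agent.H929.BG.Fin

/-! # BG: windows without rare multiplicities -/

set_option autoImplicit false

namespace Pool.Agent.H929.BG

open Finset Pool.Agent.TH3.IR Pool.Agent.Y55.Col Pool.Agent.H929.BW

lemma exp_pos {n : ℕ} (hn : 1 ≤ n) : (0 : ℝ) < (n : ℝ) / (n + 1) := by
  have : (0 : ℝ) < n := by exact_mod_cast hn
  positivity

lemma exp_lt (n : ℕ) : (n : ℝ) / (n + 1) < 1 := by
  rw [div_lt_one (by positivity)]
  linarith

/-- `(r v ^ N) ^ (n / N) = r ^ (n / N) v ^ n` -/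
lemma term_eq (n : ℕ) (r v : ℝ) (hr : 0 ≤ r) (hv : 0 ≤ v) :
    (r * v ^ (n + 1)) ^ ((n : ℝ) / (n + 1)) = r ^ ((n : ℝ) / (n + 1)) * v ^ n := by
  rw [Real.mul_rpow hr (by positivity), ← Real.rpow_natCast v (n + 1), ← Real.rpow_mul hv]
  congr 1
  have : (((n + 1 : ℕ) : ℝ)) * ((n : ℝ) / (n + 1)) = n := by
    push_cast
    field_simp
  rw [this, Real.rpow_natCast]

lemma surf_le_card {n : ℕ} (hn : 1 ≤ n) (A : Finset ℕ) (r : ℕ → ℕ) :
    surf n A r ≤ (A.card : ℝ) ^ ((1 : ℝ) / (n + 1)) *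
      (∑ v ∈ A, (r v : ℝ) * (v : ℝ) ^ (n + 1)) ^ ((n : ℝ) / (n + 1)) := by
  have hn0 : (0 : ℝ) < n := by exact_mod_cast hn
  have hp : (1 : ℝ) ≤ (n + 1) / n := by
    rw [le_div_iff₀ hn0]
    linarith
  have hs0 : 0 ≤ surf n A r := sum_nonneg fun v _ => Real.rpow_nonneg (by positivity) _
  have h := Real.rpow_sum_le_const_mul_sum_rpow A
    (fun v => ((r v : ℝ) * (v : ℝ) ^ (n + 1)) ^ ((n : ℝ) / (n + 1))) hp
  have e1 : ∑ v ∈ A, |((r v : ℝ) * (v : ℝ) ^ (n + 1)) ^ ((n : ℝ) / (n + 1))| = surf n A r := by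
    refine sum_congr rfl fun v _ => ?_
    rw [abs_of_nonneg (Real.rpow_nonneg (by positivity) _)]
  have e2 : ∑ v ∈ A, |((r v : ℝ) * (v : ℝ) ^ (n + 1)) ^ ((n : ℝ) / (n + 1))| ^ (((n : ℝ) + 1) / n) =
      ∑ v ∈ A, (r v : ℝ) * (v : ℝ) ^ (n + 1) := by
    refine sum_congr rfl fun v _ => ?_
    rw [abs_of_nonneg (Real.rpow_nonneg (by positivity) _), ← Real.rpow_mul (by positivity)]
    have : (n : ℝ) / (n + 1) * ((n + 1) / n) = 1 := by field_simp
    rw [this, Real.rpow_one]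
  rw [e1, e2] at h
  have hV : 0 ≤ ∑ v ∈ A, (r v : ℝ) * (v : ℝ) ^ (n + 1) := sum_nonneg fun v _ => by positivity
  have h2 := Real.rpow_le_rpow (Real.rpow_nonneg hs0 _) h (exp_pos hn).le
  rw [← Real.rpow_mul hs0, Real.mul_rpow (Real.rpow_nonneg (Nat.cast_nonneg _) _) hV,
    ← Real.rpow_mul (Nat.cast_nonneg _)] at h2
  have e3 : ((n : ℝ) + 1) / n * (n / (n + 1)) = 1 := by field_simp
  have e4 : (((n : ℝ) + 1) / n - 1) * (n / (n + 1)) = 1 / (n + 1) := by field_simp; ring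
  rwa [e3, e4, Real.rpow_one] at h2

lemma sub_add {s : ℝ} (hs0 : 0 < s) (hs : s < 1) (A : Finset ℕ) (f : ℕ → ℝ)
    (hf : ∀ v ∈ A, 0 ≤ f v) : (∑ v ∈ A, f v) ^ s ≤ ∑ v ∈ A, f v ^ s := by
  classical
  induction A using Finset.induction_on with
  | empty => simp [Real.zero_rpow hs0.ne']
  | insert a A ha ih =>
    rw [sum_insert ha, sum_insert ha]
    have h1 : 0 ≤ f a := hf a (mem_insert_self _ _)
    have h2 : 0 ≤ ∑ v ∈ A, f v := sum_nonneg fun v hv => hf v (mem_insert_of_mem hv)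
    have h3 := ih fun v hv => hf v (mem_insert_of_mem hv)
    have h4 := Real.add_rpow_le_rpow_add h1 h2 (p := 1) le_rfl
    have h5 : (f a + ∑ v ∈ A, f v) ^ s ≤ f a ^ s + (∑ v ∈ A, f v) ^ s :=
      Real.rpow_add_le_add_rpow h1 h2 hs0.le hs.le
    linarith

lemma le_surf {n : ℕ} (hn : 1 ≤ n) (A : Finset ℕ) (r : ℕ → ℕ) :
    (∑ v ∈ A, (r v : ℝ) * (v : ℝ) ^ (n + 1)) ^ ((n : ℝ) / (n + 1)) ≤ surf n A r :=
  sub_add (exp_pos hn) (exp_lt n) A _ fun v _ => by positivity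

lemma surf_le_sum {n : ℕ} {K : ℝ} (hK : 0 < K) (A : Finset ℕ) (r : ℕ → ℕ)
    (hr : ∀ v ∈ A, K ≤ r v) :
    K ^ ((1 : ℝ) / (n + 1)) * surf n A r ≤ ∑ v ∈ A, (r v : ℝ) * (v : ℝ) ^ n := by
  unfold surf
  rw [mul_sum]
  refine sum_le_sum fun v hv => ?_
  rw [term_eq n _ _ (Nat.cast_nonneg _) (Nat.cast_nonneg _), ← mul_assoc]
  refine mul_le_mul_of_nonneg_right ?_ (by positivity)
  have h0 : (0 : ℝ) < r v := lt_of_lt_of_le hK (hr v hv)
  calc K ^ ((1 : ℝ) / (n + 1)) * (r v : ℝ) ^ ((n : ℝ) / (n + 1))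
      ≤ (r v : ℝ) ^ ((1 : ℝ) / (n + 1)) * (r v : ℝ) ^ ((n : ℝ) / (n + 1)) := by
        refine mul_le_mul_of_nonneg_right ?_ (Real.rpow_nonneg h0.le _)
        exact Real.rpow_le_rpow hK.le (hr v hv) (by positivity)
    _ = r v := by
        rw [← Real.rpow_add h0]
        have : (1 : ℝ) / (n + 1) + n / (n + 1) = 1 := by field_simp; ring
        rw [this, Real.rpow_one]

lemma surf_nonneg (n : ℕ) (A : Finset ℕ) (r : ℕ → ℕ) : 0 ≤ surf n A r :=
  sum_nonneg fun v _ => Real.rpow_nonneg (by positivity) _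

/-- `T ^ (n + 1) = ∑ m i (m i + 1) ⋯ (m i + n)` and `d` is far from `T` -/
lemma win {n k d : ℕ} (hn : 1 ≤ n) {m : Fin k → ℕ} {T K K₀ : ℝ} (hK₀ : 1 ≤ K₀) (hT : 0 ≤ T)
    (hk : 1 ≤ k) (hTN : T ^ (n + 1) = ∑ i, PP n (m i)) (hK : K₀ + n + 1 ≤ K)
    (h : K * ((vals m).card : ℝ) ^ ((1 : ℝ) / (n + 1)) ≤ |(d : ℝ) - T|) :
    K₀ * surf n (vals m) (num m) ≤ |(∑ i, PP n (m i)) - PP n (d + 1)| := by
  have hn0 : (0 : ℝ) ≤ n := Nat.cast_nonneg n
  set q := ((vals m).card : ℝ) ^ ((1 : ℝ) / (n + 1)) with hq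
  have hA0 : (vals m).Nonempty := by
    have : Nonempty (Fin k) := ⟨⟨0, hk⟩⟩
    exact univ_nonempty.image m
  have hq1 : 1 ≤ q := by
    refine Real.one_le_rpow ?_ (by positivity)
    exact_mod_cast hA0.card_pos
  have hV : ∑ v ∈ vals m, (num m v : ℝ) * (v : ℝ) ^ (n + 1) ≤ T ^ (n + 1) := by
    rw [hTN, sum_vals m fun v => (v : ℝ) ^ (n + 1)]
    exact sum_le_sum fun i _ => PP_lower n (Nat.cast_nonneg _)
  have hV0 : 0 ≤ ∑ v ∈ vals m, (num m v : ℝ) * (v : ℝ) ^ (n + 1) :=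
    sum_nonneg fun v _ => by positivity
  have hs : surf n (vals m) (num m) ≤ q * T ^ n := by
    refine (surf_le_card hn _ _).trans ?_
    refine mul_le_mul_of_nonneg_left ?_ (by positivity)
    have h1 := Real.rpow_le_rpow hV0 hV (exp_pos hn).le
    refine h1.trans_eq ?_
    rw [← Real.rpow_natCast, ← Real.rpow_mul hT]
    have : (((n + 1 : ℕ) : ℝ)) * ((n : ℝ) / (n + 1)) = n := by
      push_cast
      field_simp
    rw [this, Real.rpow_natCast]
  have hTn : 0 ≤ T ^ n := pow_nonneg hT n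
  have hmain : K₀ * surf n (vals m) (num m) ≤ K₀ * q * T ^ n := by
    rw [mul_assoc]
    exact mul_le_mul_of_nonneg_left hs (by linarith)
  rcases le_total T d with hd | hd
  · rw [abs_of_nonneg (by linarith)] at h
    have h1 : (T + K₀ * q) ^ (n + 1) ≤ PP n ((d : ℝ) + 1) := by
      refine (pow_le_pow_left₀ (by positivity) ?_ _).trans (PP_lower n (by positivity))
      nlinarith
    have h2 := add_pow_ge (n := n) (c := K₀ * q) hT (by positivity)
    rw [hTN] at h2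
    rw [abs_sub_comm]
    refine hmain.trans (le_trans ?_ (le_abs_self _))
    linarith
  · rw [abs_of_nonpos (by linarith)] at h
    have h1 : PP n ((d : ℝ) + 1) ≤ (T - K₀ * q) ^ (n + 1) := by
      refine (PP_upper n (by positivity)).trans (pow_le_pow_left₀ (by positivity) ?_ _)
      nlinarith
    have hd0 : (0 : ℝ) ≤ d := Nat.cast_nonneg d
    have h2 := pow_sub_ge (n := n) (x := T) (y := T - K₀ * q) (by nlinarith)
      (by nlinarith)
    rw [hTN] at h2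
    refine hmain.trans (le_trans ?_ (le_abs_self _))
    have e : T - (T - K₀ * q) = K₀ * q := by ring
    rw [e] at h2
    linarith

lemma PP_ge (n : ℕ) (hn : 1 ≤ n) {x : ℝ} (hx : 0 ≤ x) : x ^ (n + 1) + x ^ n ≤ PP n x := by
  obtain ⟨l, rfl⟩ : ∃ l, n = l + 1 := ⟨n - 1, by omega⟩
  have h : x ^ l ≤ ∏ j ∈ range l, (x + ((j + 1 + 1 : ℕ) : ℝ)) := by
    calc x ^ l = ∏ _j ∈ range l, x := by rw [prod_const, card_range]
      _ ≤ _ := by
        refine prod_le_prod (fun _ _ => hx) fun j _ => ?_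
        push_cast
        have : (0 : ℝ) ≤ j := Nat.cast_nonneg j
        linarith
  have e : PP (l + 1) x = (∏ j ∈ range l, (x + ((j + 1 + 1 : ℕ) : ℝ))) * (x + 1) * x := by
    unfold PP
    rw [prod_range_succ', prod_range_succ']
    push_cast
    ring
  rw [e]
  have h2 : x ^ l * (x + 1) * x ≤
      (∏ j ∈ range l, (x + ((j + 1 + 1 : ℕ) : ℝ))) * (x + 1) * x :=
    mul_le_mul_of_nonneg_right (mul_le_mul_of_nonneg_right h (by linarith)) hx
  refine le_trans (le_of_eq ?_) h2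
  ring

lemma PP_le' (n : ℕ) (hn : 1 ≤ n) {x : ℝ} (hx : 0 ≤ x) : PP n x + x ^ n ≤ (x + n) ^ (n + 1) := by
  have h : PP n x ≤ x * (x + n) ^ n := by
    unfold PP
    rw [prod_range_succ', mul_comm]
    push_cast
    rw [add_zero]
    refine mul_le_mul_of_nonneg_left ?_ hx
    calc (∏ j ∈ range n, (x + (j + 1))) ≤ ∏ _j ∈ range n, (x + n) := by
          refine prod_le_prod (fun j _ => by positivity) fun j hj => ?_
          have : (j : ℝ) + 1 ≤ n := by exact_mod_cast Nat.succ_le_of_lt (mem_range.1 hj)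
          linarith
      _ = _ := by rw [prod_const, card_range]
  have hn1 : (1 : ℝ) ≤ n := by exact_mod_cast hn
  have h2 : x ^ n ≤ (x + n) ^ n := pow_le_pow_left₀ hx (by linarith) n
  have h3 : (x + n) ^ (n + 1) = x * (x + n) ^ n + n * (x + n) ^ n := by ring
  have h4 : (x + n) ^ n ≤ n * (x + n) ^ n := by
    have : 0 ≤ (x + n) ^ n := by positivity
    nlinarith
  linarith

/-- the volume sandwich -/
lemma sandwich {n k d : ℕ} (hn : 1 ≤ n) {m : Fin k → ℕ} {K K₀ : ℝ}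
    (hk : 1 ≤ k) (hm : ∀ i, 1 ≤ m i) (hK0 : 0 < K)
    (hK : K₀ + (n + 1) ^ 2 * (n + 2) ^ n ≤ K ^ ((1 : ℝ) / (n + 1)))
    (hr : ∀ v ∈ vals m, K ≤ num m v)
    (h : (d : ℝ) ^ (n + 1) ≤ ∑ i, (m i : ℝ) ^ (n + 1) ∨
      ∑ i, ((m i : ℝ) + n) ^ (n + 1) ≤ (d : ℝ) ^ (n + 1)) :
    K₀ * surf n (vals m) (num m) ≤ |(∑ i, PP n (m i)) - PP n (d + 1)| := by
  have hn0 : (0 : ℝ) ≤ n := Nat.cast_nonneg n
  have hs := surf_le_sum hK0 (n := n) (vals m) (num m) hr
  rw [sum_vals m fun v => (v : ℝ) ^ n] at hs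
  have hs0 := surf_nonneg n (vals m) (num m)
  have hd0 : (0 : ℝ) ≤ d := Nat.cast_nonneg d
  have h1 : (K₀ + (n + 1) ^ 2 * (n + 2) ^ n) * surf n (vals m) (num m) ≤ ∑ i, (m i : ℝ) ^ n :=
    (mul_le_mul_of_nonneg_right hK hs0).trans hs
  have h1' : K₀ * surf n (vals m) (num m) ≤ ∑ i, (m i : ℝ) ^ n := by
    refine le_trans (mul_le_mul_of_nonneg_right ?_ hs0) h1
    have : (0 : ℝ) ≤ (n + 1) ^ 2 * (n + 2) ^ n := by positivity
    linarith
  rcases h with h | h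
  · have h2 : (∑ i, (m i : ℝ) ^ (n + 1)) + ∑ i, (m i : ℝ) ^ n ≤ ∑ i, PP n (m i) := by
      rw [← sum_add_distrib]
      exact sum_le_sum fun i _ => PP_ge n hn (Nat.cast_nonneg _)
    obtain ⟨W, hW⟩ : ∃ W : ℝ, W = ∑ i, (m i : ℝ) ^ (n + 1) := ⟨_, rfl⟩
    have hW1 : 1 ≤ W := by
      rw [hW]
      have h3 : (1 : ℝ) ≤ (m ⟨0, hk⟩ : ℝ) ^ (n + 1) := one_le_pow₀ (by exact_mod_cast hm _)
      exact h3.trans (single_le_sum (f := fun i => (m i : ℝ) ^ (n + 1))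
        (fun i _ => by positivity) (mem_univ _))
    have hWs : W ^ ((n : ℝ) / (n + 1)) ≤ surf n (vals m) (num m) := by
      have h3 := le_surf hn (vals m) (num m)
      rwa [sum_vals m fun v => (v : ℝ) ^ (n + 1), ← hW] at h3
    obtain ⟨x, hx⟩ : ∃ x : ℝ, x = max (d : ℝ) 1 := ⟨_, rfl⟩
    have hx1 : 1 ≤ x := by rw [hx]; exact le_max_right _ _
    have hxd : (d : ℝ) ≤ x := by rw [hx]; exact le_max_left _ _
    have hxW : x ^ (n + 1) ≤ W := by
      rw [hx]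
      rcases max_choice (d : ℝ) 1 with h3 | h3
      · rw [h3, hW]
        exact h
      · rw [h3, one_pow]
        exact hW1
    have hxn : x ^ n ≤ surf n (vals m) (num m) := by
      refine le_trans ?_ hWs
      have h3 := Real.rpow_le_rpow (by positivity) hxW (exp_pos hn).le
      refine le_trans (le_of_eq ?_) h3
      rw [← Real.rpow_natCast x (n + 1), ← Real.rpow_mul (by linarith)]
      have : (((n + 1 : ℕ) : ℝ)) * ((n : ℝ) / (n + 1)) = n := by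
        push_cast
        field_simp
      rw [this, Real.rpow_natCast]
    have h4 : PP n ((d : ℝ) + 1) ≤ (d : ℝ) ^ (n + 1) + (n + 1) ^ 2 * (n + 2) ^ n * x ^ n := by
      have h5 : PP n ((d : ℝ) + 1) ≤ ((d : ℝ) + 1 + n) ^ (n + 1) := PP_upper n (by positivity)
      have h6 := Pool.Agent.H980.BW.pow_sub_le (x := (d : ℝ) + 1 + n) (y := d) hd0 (by linarith) n
      have h7 : ((d : ℝ) + 1 + n) ^ n ≤ ((n + 2) * x) ^ n :=
        pow_le_pow_left₀ (by positivity) (by nlinarith) n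
      have e : (d : ℝ) + 1 + n - d = n + 1 := by ring
      rw [e] at h6
      have h8 : ((n : ℝ) + 1) * ((d : ℝ) + 1 + n) ^ n * (n + 1) ≤
          (n + 1) ^ 2 * (n + 2) ^ n * x ^ n := by
        rw [mul_pow] at h7
        have h9 := mul_le_mul_of_nonneg_left h7 (show (0 : ℝ) ≤ (n + 1) ^ 2 by positivity)
        nlinarith
      linarith
    have h5 : (n + 1) ^ 2 * (n + 2) ^ n * x ^ n ≤
        (n + 1) ^ 2 * (n + 2) ^ n * surf n (vals m) (num m) :=
      mul_le_mul_of_nonneg_left hxn (by positivity)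
    refine le_trans ?_ (le_abs_self _)
    rw [← hW] at h h2
    linarith
  · have h2 : (∑ i, PP n (m i)) + ∑ i, (m i : ℝ) ^ n ≤ ∑ i, ((m i : ℝ) + n) ^ (n + 1) := by
      rw [← sum_add_distrib]
      exact sum_le_sum fun i _ => PP_le' n hn (Nat.cast_nonneg _)
    have h3 : (d : ℝ) ^ (n + 1) ≤ PP n ((d : ℝ) + 1) :=
      (pow_le_pow_left₀ hd0 (by linarith) _).trans (PP_lower n (by positivity))
    rw [abs_sub_comm]
    refine le_trans ?_ (le_abs_self _)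
    linarith

end Pool.Agent.H929.BG
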